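import Pool.Agent.Helper37.DG.Stmts

/-!
Product formula for sums over subsets of a union of disjoint blocks.
-/

namespace Pool.Agent.Helper37.DG

open Finset
open scoped Classical

theorem pf_two (A C : Finset ℕ) (h : Disjoint A C) (F G : Finset ℕ → ℝ) :
    ∑ T ∈ (A ∪ C).powerset, F (T ∩ A) * G (T ∩ C) =
      (∑ T ∈ A.powerset, F T) * ∑ T ∈ C.powerset, G T := by
  rw [Finset.sum_mul_sum, ← Finset.sum_product']
  refine Finset.sum_nbij' (fun T => (T ∩ A, T ∩ C)) (fun q => q.1 ∪ q.2) ?_ ?_ ?_ ?_ ?_
  · intro T _
    simp only [Finset.mem_product, Finset.mem_powerset]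
    exact ⟨Finset.inter_subset_right, Finset.inter_subset_right⟩
  · intro q hq
    simp only [Finset.mem_product, Finset.mem_powerset] at hq
    rw [Finset.mem_powerset]
    exact Finset.union_subset_union hq.1 hq.2
  · intro T hT
    rw [Finset.mem_powerset] at hT
    change T ∩ A ∪ T ∩ C = T
    rw [← Finset.inter_union_distrib_left]
    exact Finset.inter_eq_left.2 hT
  · intro q hq
    simp only [Finset.mem_product, Finset.mem_powerset] at hq
    have h1 : q.2 ∩ A = ∅ := by
      rw [← Finset.disjoint_iff_inter_eq_empty]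
      exact (h.mono_right hq.2).symm
    have h2 : q.1 ∩ C = ∅ := by
      rw [← Finset.disjoint_iff_inter_eq_empty]
      exact h.mono_left hq.1
    change ((q.1 ∪ q.2) ∩ A, (q.1 ∪ q.2) ∩ C) = q
    rw [Finset.union_inter_distrib_right, Finset.union_inter_distrib_right, h1, h2,
      Finset.union_empty, Finset.empty_union, Finset.inter_eq_left.2 hq.1,
      Finset.inter_eq_left.2 hq.2]
  · intro T _
    rfl

theorem st_PF : ST_PF := by
  intro K
  induction K with
  | zero =>
    intro B f _
    simp [un]
  | succ K ih =>
    intro B f hB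
    have hB' : Dsj K B := fun m hm m' hm' hne =>
      hB m (hm.trans (Nat.lt_succ_self K)) m' (hm'.trans (Nat.lt_succ_self K)) hne
    have hun : un (K + 1) B = un K B ∪ B K := by
      unfold un
      rw [Finset.range_add_one, Finset.biUnion_insert, Finset.union_comm]
    have hdis : Disjoint (un K B) (B K) := by
      unfold un
      rw [Finset.disjoint_biUnion_left]
      intro m hm
      have hm' := Finset.mem_range.1 hm
      exact hB m (by omega) K (by omega) (by omega)
    have hsub : ∀ m < K, B m ⊆ un K B := by
      intro m hm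
      exact Finset.subset_biUnion_of_mem B (Finset.mem_range.2 hm)
    have h1 : ∀ T : Finset ℕ, ∏ m ∈ Finset.range (K + 1), f m (T ∩ B m) =
        (fun T' : Finset ℕ => ∏ m ∈ Finset.range K, f m (T' ∩ B m)) (T ∩ un K B) *
          f K (T ∩ B K) := by
      intro T
      rw [Finset.prod_range_succ]
      refine congrArg (fun a => a * f K (T ∩ B K)) ?_
      refine Finset.prod_congr rfl fun m hm => ?_
      have h2 : T ∩ un K B ∩ B m = T ∩ B m := by
        rw [Finset.inter_assoc, Finset.inter_eq_right.2 (hsub m (Finset.mem_range.1 hm))]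
      rw [h2]
    have h3 := pf_two (un K B) (B K) hdis
      (fun T' : Finset ℕ => ∏ m ∈ Finset.range K, f m (T' ∩ B m)) (f K)
    rw [hun, Finset.sum_congr rfl fun T _ => h1 T]
    refine h3.trans ?_
    rw [Finset.prod_range_succ, ← ih B f hB']

end Pool.Agent.Helper37.DG
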