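import Pool.Agent.Helper37.DG.Stmts2

/-!
The case of lattices similar to an integral form.
-/

namespace Pool.Agent.Helper37.DG

open Finset
open scoped Classical

theorem rat_dc (D : ℕ) (P : Finset (ℤ × ℤ)) (φ : ℤ × ℤ → ℤ × ℤ)
    (s : ℝ) (f : (ℤ × ℤ) × (ℤ × ℤ) → ℝ)
    (hf : ∀ u, s * f u = (nmD D (φ u.1 - φ u.2) : ℝ)) :
    dcD D (P.image φ) ≤ (P.offDiag.image f).card := by
  unfold dcD
  rw [← Finset.card_image_of_injective
    ((P.image φ).offDiag.image (fun a => nmD D (a.1 - a.2))) (Nat.cast_injective (R := ℝ))]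
  refine le_trans (Finset.card_le_card ?_)
    (Finset.card_image_le (s := P.offDiag.image f) (f := fun r => s * r))
  intro r hr
  obtain ⟨m, hm, rfl⟩ := Finset.mem_image.1 hr
  obtain ⟨⟨x, y⟩, hxy, rfl⟩ := Finset.mem_image.1 hm
  rw [Finset.mem_offDiag] at hxy
  obtain ⟨x', hx', hx1⟩ := Finset.mem_image.1 hxy.1
  obtain ⟨y', hy', hy1⟩ := Finset.mem_image.1 hxy.2.1
  have hx2 : φ x' = x := hx1
  have hy2 : φ y' = y := hy1
  rw [Finset.mem_image]
  refine ⟨f (x', y'), Finset.mem_image.2 ⟨(x', y'), ?_, rfl⟩, ?_⟩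
  · rw [Finset.mem_offDiag]
    refine ⟨hx', hy', fun h => hxy.2.2 ?_⟩
    change x' = y' at h
    change x = y
    rw [← hx2, ← hy2, h]
  · rw [hf]
    change ((nmD D (φ x' - φ y') : ℕ) : ℝ) = ((nmD D (x - y) : ℕ) : ℝ)
    rw [hx2, hy2]

theorem rat_core (D : ℕ) (c₀ ε : ℝ) (hc₀ : 0 < c₀) (hε : 0 < ε)
    (hmain : ∀ (N M : ℕ) (P : Finset (ℤ × ℤ)), 1 ≤ M → M ≤ N → P ⊆ box N M → 2 ≤ P.card →
      c₀ * ((P.card : ℝ) / (M * N)) ^ ε * P.card / Real.sqrt (Real.log N) ≤ dcD D P)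
    (K : ℝ) (hK : 1 ≤ K) (A B A' : ℕ) (P : Finset (ℤ × ℤ)) (φ : ℤ × ℤ → ℤ × ℤ)
    (hφ : Function.Injective φ) (hB : 1 ≤ B) (hBA : B ≤ A') (hA' : (A' : ℝ) ≤ K * A)
    (hmap : ∀ u ∈ P, φ u ∈ box A' B) (hcard : P.card ≤ B * A) (h2 : 2 ≤ P.card) (s : ℝ)
    (f : (ℤ × ℤ) × (ℤ × ℤ) → ℝ) (hf : ∀ u, s * f u = (nmD D (φ u.1 - φ u.2) : ℝ)) :
    c₀ * K ^ (-ε) / Real.sqrt (1 + Real.log K / Real.log 2) * ((P.card : ℝ) / (B * A)) ^ ε *
      P.card / Real.sqrt (Real.log (B * A)) ≤ (P.offDiag.image f).card := by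
  have hc1 : (P.image φ).card = P.card := Finset.card_image_of_injective P hφ
  have h3 := hmain A' B (P.image φ) hB hBA (by
    intro v hv
    obtain ⟨u, hu, rfl⟩ := Finset.mem_image.1 hv
    exact hmap u hu) (by rw [hc1]; exact h2)
  rw [hc1] at h3
  have h4 : ((dcD D (P.image φ) : ℕ) : ℝ) ≤ (P.offDiag.image f).card := by
    exact_mod_cast rat_dc D P φ s f hf
  refine le_trans ?_ (h3.trans h4)
  have hBr : (1 : ℝ) ≤ B := by exact_mod_cast hB
  have hcr : (2 : ℝ) ≤ P.card := by exact_mod_cast h2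
  have hBA1 : (P.card : ℝ) ≤ (B : ℝ) * A := by exact_mod_cast hcard
  have hBApos : (0 : ℝ) < (B : ℝ) * A := by linarith
  have hApos : (0 : ℝ) < A := by
    rcases pos_and_pos_or_neg_and_neg_of_mul_pos hBApos with h | h
    · exact h.2
    · linarith [h.1]
  have hcardA' : P.card ≤ A' * B := by
    rw [← hc1]
    have h5 : (P.image φ).card ≤ (box A' B).card := by
      refine Finset.card_le_card ?_
      intro v hv
      obtain ⟨u, hu, rfl⟩ := Finset.mem_image.1 hv
      exact hmap u hu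
    refine h5.trans ?_
    simp [box]
  have hA'2 : 2 ≤ A' := by
    by_contra h
    have h6 : A' ≤ 1 := by omega
    have h7 : B ≤ 1 := by omega
    have h8 : A' * B ≤ 1 * 1 := Nat.mul_le_mul h6 h7
    omega
  have hA'r : (2 : ℝ) ≤ A' := by exact_mod_cast hA'2
  have hlogA' : 0 < Real.log A' := Real.log_pos (by linarith)
  have hlog2 : 0 < Real.log 2 := Real.log_pos (by norm_num)
  have hlogK : 0 ≤ Real.log K := Real.log_nonneg hK
  have hlogBA : Real.log 2 ≤ Real.log ((B : ℝ) * A) := Real.log_le_log (by norm_num) (by linarith)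
  have hL : 0 < 1 + Real.log K / Real.log 2 := by positivity
  have h9 : Real.log A' ≤ (1 + Real.log K / Real.log 2) * Real.log ((B : ℝ) * A) := by
    have h10 : Real.log A' ≤ Real.log (K * ((B : ℝ) * A)) := by
      refine Real.log_le_log (by linarith) (hA'.trans ?_)
      nlinarith
    rw [Real.log_mul (by positivity) (by positivity)] at h10
    have h11 : Real.log K ≤ Real.log K / Real.log 2 * Real.log ((B : ℝ) * A) := by
      rw [div_mul_eq_mul_div, le_div_iff₀ hlog2]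
      exact mul_le_mul_of_nonneg_left hlogBA hlogK
    linarith
  have h12 : Real.sqrt (Real.log A') ≤
      Real.sqrt (1 + Real.log K / Real.log 2) * Real.sqrt (Real.log ((B : ℝ) * A)) := by
    rw [← Real.sqrt_mul hL.le]
    exact Real.sqrt_le_sqrt h9
  have h13 : K ^ (-ε) * ((P.card : ℝ) / (B * A)) ^ ε ≤ ((P.card : ℝ) / (B * A')) ^ ε := by
    have h14 : K ^ (-ε) * ((P.card : ℝ) / (B * A)) ^ ε =
        (K⁻¹ * ((P.card : ℝ) / (B * A))) ^ ε := by
      rw [Real.mul_rpow (by positivity) (by positivity), Real.inv_rpow (by positivity),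
        Real.rpow_neg (by positivity)]
    rw [h14]
    refine Real.rpow_le_rpow (by positivity) ?_ hε.le
    have h15 : K⁻¹ * ((P.card : ℝ) / (B * A)) = (P.card : ℝ) / (K * (B * A)) := by
      field_simp
    rw [h15]
    refine div_le_div_of_nonneg_left (by positivity) (by positivity) ?_
    nlinarith
  have hsL : 0 < Real.sqrt (1 + Real.log K / Real.log 2) := Real.sqrt_pos.2 hL
  have hsBA : 0 < Real.sqrt (Real.log ((B : ℝ) * A)) := Real.sqrt_pos.2 (by linarith)
  have hsA' : 0 < Real.sqrt (Real.log (A' : ℝ)) := Real.sqrt_pos.2 hlogA'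
  calc c₀ * K ^ (-ε) / Real.sqrt (1 + Real.log K / Real.log 2) * ((P.card : ℝ) / (B * A)) ^ ε *
      P.card / Real.sqrt (Real.log (B * A))
      = c₀ * (K ^ (-ε) * ((P.card : ℝ) / (B * A)) ^ ε) * P.card /
        (Real.sqrt (1 + Real.log K / Real.log 2) * Real.sqrt (Real.log ((B : ℝ) * A))) := by
        field_simp
    _ ≤ c₀ * (K ^ (-ε) * ((P.card : ℝ) / (B * A)) ^ ε) * P.card /
        Real.sqrt (Real.log (A' : ℝ)) := by
        refine div_le_div_of_nonneg_left ?_ hsA' h12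
        positivity
    _ ≤ c₀ * ((P.card : ℝ) / (B * A')) ^ ε * P.card / Real.sqrt (Real.log (A' : ℝ)) := by
        refine div_le_div_of_nonneg_right ?_ hsA'.le
        refine mul_le_mul_of_nonneg_right ?_ (by positivity)
        exact mul_le_mul_of_nonneg_left h13 hc₀.le

theorem rat_abs (b y : ℤ) (M : ℕ) (h0 : 0 ≤ y) (h1 : y < M) :
    0 ≤ b * y + (b.natAbs : ℤ) * M ∧ b * y + (b.natAbs : ℤ) * M ≤ 2 * (b.natAbs : ℤ) * M := by
  have h2 : |b * y| ≤ (b.natAbs : ℤ) * M := by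
    rw [abs_mul, abs_of_nonneg h0, ← Int.natCast_natAbs]
    exact mul_le_mul_of_nonneg_left h1.le (by positivity)
  have h3 := abs_le.1 h2
  constructor
  · linarith [h3.1]
  · linarith [h3.2]

theorem st_RAT (h1 : ST_MAIND) : ST_RAT := by
  intro t a b c ht ha hΔ ε hε
  have hc : 0 < c := by
    by_contra h
    have h2 : c ≤ 0 := not_lt.1 h
    have h3 := sq_nonneg b
    nlinarith [mul_nonneg ha.le (neg_nonneg.2 h2)]
  obtain ⟨D, hD⟩ : ∃ D : ℕ, (D : ℤ) = 4 * a * c - b ^ 2 :=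
    ⟨(4 * a * c - b ^ 2).toNat, Int.toNat_of_nonneg hΔ.le⟩
  have hD1 : 1 ≤ D := by
    have : (0 : ℤ) < D := by rw [hD]; exact hΔ
    omega
  obtain ⟨a', ha'⟩ : ∃ a' : ℕ, (a' : ℤ) = a := ⟨a.toNat, Int.toNat_of_nonneg ha.le⟩
  obtain ⟨c', hc'⟩ : ∃ c' : ℕ, (c' : ℤ) = c := ⟨c.toNat, Int.toNat_of_nonneg hc.le⟩
  obtain ⟨c₀, hc₀, hmain⟩ := h1 D hD1 ε hε
  let K : ℝ := 2 * a' + 2 * c' + 2 * b.natAbs + 1
  have hK : 1 ≤ K := by
    have : (0 : ℝ) ≤ 2 * a' + 2 * c' + 2 * b.natAbs := by positivity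
    linarith
  have hlog2 : 0 < Real.log 2 := Real.log_pos (by norm_num)
  have hlogK : 0 ≤ Real.log K := Real.log_nonneg hK
  have hDr : (D : ℝ) = 4 * a * c - b ^ 2 := by exact_mod_cast hD
  have har : (0 : ℝ) < a := by exact_mod_cast ha
  have hcr : (0 : ℝ) < c := by exact_mod_cast hc
  refine ⟨c₀ * K ^ (-ε) / Real.sqrt (1 + Real.log K / Real.log 2), by positivity, ?_⟩
  intro N M P hP h2
  obtain ⟨v, hv⟩ : P.Nonempty := Finset.card_pos.1 (by omega)
  have hv1 := hP hv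
  simp only [box, Finset.mem_product, Finset.mem_Ico] at hv1
  have hN1 : 1 ≤ N := by omega
  have hM1 : 1 ≤ M := by omega
  have hcard : P.card ≤ N * M := by
    refine (Finset.card_le_card hP).trans ?_
    simp [box]
  have hnm : ∀ v : ℤ × ℤ, ((nmD D v : ℕ) : ℝ) = (v.1 : ℝ) ^ 2 + D * (v.2 : ℝ) ^ 2 := by
    intro v
    unfold nmD
    have h3 : ((v.1 ^ 2 + (D : ℤ) * v.2 ^ 2).natAbs : ℤ) = v.1 ^ 2 + (D : ℤ) * v.2 ^ 2 :=
      Int.natAbs_of_nonneg (by positivity)
    have h4 : (((v.1 ^ 2 + (D : ℤ) * v.2 ^ 2).natAbs : ℤ) : ℝ) =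
        ((v.1 ^ 2 + (D : ℤ) * v.2 ^ 2 : ℤ) : ℝ) := by rw [h3]
    push_cast at h4
    rw [← h4]
    simp
  rcases le_total M N with hMN | hNM
  · have hMNr : (M : ℝ) ≤ N := by exact_mod_cast hMN
    have hN1r : (1 : ℝ) ≤ N := by exact_mod_cast hN1
    refine rat_core D c₀ ε hc₀ hε hmain K hK N M (2 * a' * N + 2 * b.natAbs * M + 1) P
      (fun u => (2 * a * u.1 + b * u.2 + (b.natAbs : ℤ) * M, u.2)) ?_ hM1 ?_ ?_ ?_
      (by rw [Nat.mul_comm]; exact hcard) h2 (4 * a / t) _ ?_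
    · intro u w huw
      simp only [Prod.mk.injEq] at huw
      obtain ⟨e1, e2⟩ := huw
      rw [e2] at e1
      have e3 : 2 * a * u.1 = 2 * a * w.1 := by linarith
      have e4 : u.1 = w.1 := by
        have : (2 * a) ≠ 0 := by positivity
        exact mul_left_cancel₀ this e3
      exact Prod.ext e4 e2
    · have h5 : 1 * N ≤ 2 * a' * N := Nat.mul_le_mul_right N (by omega)
      omega
    · push_cast
      have e1 : (0 : ℝ) ≤ b.natAbs := by positivity
      have e2 : (0 : ℝ) ≤ c' := by positivity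
      have e3 : 2 * (b.natAbs : ℝ) * M ≤ 2 * b.natAbs * N :=
        mul_le_mul_of_nonneg_left hMNr (by positivity)
      have e4 : (0 : ℝ) ≤ 2 * c' * N := by positivity
      change _ ≤ (2 * (a' : ℝ) + 2 * c' + 2 * b.natAbs + 1) * N
      nlinarith
    · intro u hu
      have h3 := hP hu
      simp only [box, Finset.mem_product, Finset.mem_Ico] at h3 ⊢
      obtain ⟨⟨x0, x1⟩, y0, y1⟩ := h3
      have h4 := rat_abs b u.2 M y0 y1
      refine ⟨⟨?_, ?_⟩, y0, y1⟩
      · have : 0 ≤ 2 * a * u.1 := by positivity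
        linarith [h4.1]
      · simp only [Nat.cast_add, Nat.cast_mul, Nat.cast_one, Nat.cast_ofNat]
        rw [ha']
        have : 2 * a * u.1 ≤ 2 * a * N := mul_le_mul_of_nonneg_left x1.le (by positivity)
        linarith [h4.2]
    · intro u
      rw [hnm]
      push_cast
      rw [hDr]
      field_simp
      simp only [Prod.fst_sub, Prod.snd_sub]
      push_cast
      ring
  · have hMNr : (N : ℝ) ≤ M := by exact_mod_cast hNM
    have hM1r : (1 : ℝ) ≤ M := by exact_mod_cast hM1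
    have hcomm : (M : ℝ) * N = N * M := mul_comm _ _
    rw [hcomm]
    refine rat_core D c₀ ε hc₀ hε hmain K hK M N (2 * c' * M + 2 * b.natAbs * N + 1) P
      (fun u => (2 * c * u.2 + b * u.1 + (b.natAbs : ℤ) * N, u.1)) ?_ hN1 ?_ ?_ ?_
      hcard h2 (4 * c / t) _ ?_
    · intro u w huw
      simp only [Prod.mk.injEq] at huw
      obtain ⟨e1, e2⟩ := huw
      rw [e2] at e1
      have e3 : 2 * c * u.2 = 2 * c * w.2 := by linarith
      have e4 : u.2 = w.2 := by
        have : (2 * c) ≠ 0 := by positivity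
        exact mul_left_cancel₀ this e3
      exact Prod.ext e2 e4
    · have h5 : 1 * M ≤ 2 * c' * M := Nat.mul_le_mul_right M (by omega)
      omega
    · push_cast
      have e1 : (0 : ℝ) ≤ b.natAbs := by positivity
      have e2 : (0 : ℝ) ≤ a' := by positivity
      have e3 : 2 * (b.natAbs : ℝ) * N ≤ 2 * b.natAbs * M :=
        mul_le_mul_of_nonneg_left hMNr (by positivity)
      have e4 : (0 : ℝ) ≤ 2 * a' * M := by positivity
      change _ ≤ (2 * (a' : ℝ) + 2 * c' + 2 * b.natAbs + 1) * M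
      nlinarith
    · intro u hu
      have h3 := hP hu
      simp only [box, Finset.mem_product, Finset.mem_Ico] at h3 ⊢
      obtain ⟨⟨x0, x1⟩, y0, y1⟩ := h3
      have h4 := rat_abs b u.1 N x0 x1
      refine ⟨⟨?_, ?_⟩, x0, x1⟩
      · have : 0 ≤ 2 * c * u.2 := by positivity
        linarith [h4.1]
      · simp only [Nat.cast_add, Nat.cast_mul, Nat.cast_one, Nat.cast_ofNat]
        rw [hc']
        have : 2 * c * u.2 ≤ 2 * c * M := mul_le_mul_of_nonneg_left y1.le (by positivity)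
        linarith [h4.2]
    · intro u
      rw [hnm]
      push_cast
      rw [hDr]
      field_simp
      simp only [Prod.fst_sub, Prod.snd_sub]
      push_cast
      ring

end Pool.Agent.Helper37.DG
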