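import Pool.Agent.Helper37.DG.Stmts2

/-!
The main range.
-/

namespace Pool.Agent.Helper37.DG

open Finset
open scoped Classical
open Pool.Agent.Helper17.SO (PP LL)

theorem regd_K (y b N : ℕ) (hy : 2 ≤ y) (hb : 1 ≤ b) (h : y ^ b ≤ N) :
    ∃ K : ℕ, (y ^ (2 ^ K)) ^ b ≤ N ∧ N < (y ^ (2 ^ K)) ^ (2 * b) := by
  have hex : ∃ K : ℕ, N < (y ^ (2 ^ K)) ^ b := by
    refine ⟨N, ?_⟩
    have h1 : N < 2 ^ N := Nat.lt_two_pow_self
    have h2 : 2 ^ N < 2 ^ (2 ^ N) := Nat.lt_two_pow_self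
    have h3 : 2 ^ (2 ^ N) ≤ y ^ (2 ^ N) := Nat.pow_le_pow_left hy _
    have h4 : (y ^ (2 ^ N)) ^ 1 ≤ (y ^ (2 ^ N)) ^ b :=
      Nat.pow_le_pow_right (by positivity) hb
    rw [pow_one] at h4
    omega
  obtain ⟨K, hK, hmin⟩ : ∃ K : ℕ, N < (y ^ (2 ^ K)) ^ b ∧
      ∀ m < K, ¬ N < (y ^ (2 ^ m)) ^ b :=
    ⟨Nat.find hex, Nat.find_spec hex, fun m hm => Nat.find_min hex hm⟩
  rcases Nat.eq_zero_or_pos K with h0 | h0
  · subst h0
    simp only [pow_zero, pow_one] at hK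
    omega
  · refine ⟨K - 1, not_lt.1 (hmin (K - 1) (by omega)), ?_⟩
    have h5 : (y ^ 2 ^ (K - 1)) ^ (2 * b) = (y ^ 2 ^ K) ^ b := by
      rw [← pow_mul, ← pow_mul]
      congr 1
      have h6 : 2 ^ K = 2 ^ (K - 1) * 2 := by
        rw [← pow_succ]
        congr 1
        omega
      rw [h6]
      ring
    rw [h5]
    exact hK

theorem regd_log (L : ℕ) (B d y : ℝ) (hB : 1 ≤ B) (hd0 : 0 < d) (hd1 : d ≤ 1) (hy : 1 ≤ y)
    (hyB : y ≤ B / d ^ 2) :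
    (1 + Real.log y) ^ L ≤ (1 + Real.log B + 2 * ((L : ℝ) + 1)) ^ L / d := by
  have hlogB : 0 ≤ Real.log B := Real.log_nonneg hB
  have hlogy : 0 ≤ Real.log y := Real.log_nonneg hy
  have hε : (0 : ℝ) < 1 / ((L : ℝ) + 1) := by positivity
  have hx : (1 : ℝ) ≤ 1 / d := by rw [le_div_iff₀ hd0]; linarith
  have h1 : Real.log (1 / d) ≤ (1 / d) ^ (1 / ((L : ℝ) + 1)) / (1 / ((L : ℝ) + 1)) :=
    Real.log_le_rpow_div (by positivity) hε
  have h2 : 1 ≤ (1 / d) ^ (1 / ((L : ℝ) + 1)) := Real.one_le_rpow hx hε.le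
  have h3 : Real.log y ≤ Real.log B + 2 * Real.log (1 / d) := by
    have h4 : Real.log y ≤ Real.log (B / d ^ 2) := Real.log_le_log (by linarith) hyB
    have h5 : B / d ^ 2 = B * (1 / d) ^ 2 := by field_simp
    rw [h5, Real.log_mul (by positivity) (by positivity), Real.log_pow] at h4
    push_cast at h4
    exact h4
  have h6 : (1 / d) ^ (1 / ((L : ℝ) + 1)) / (1 / ((L : ℝ) + 1)) =
      ((L : ℝ) + 1) * (1 / d) ^ (1 / ((L : ℝ) + 1)) := by
    field_simp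
  rw [h6] at h1
  set w : ℝ := (1 / d) ^ (1 / ((L : ℝ) + 1)) with hw
  have h7 : 1 + Real.log y ≤ (1 + Real.log B + 2 * ((L : ℝ) + 1)) * w := by
    have h8 : (1 + Real.log B) * 1 ≤ (1 + Real.log B) * w :=
      mul_le_mul_of_nonneg_left h2 (by linarith)
    nlinarith
  have h9 : w ^ L ≤ 1 / d := by
    have h10 : w ^ L = (1 / d) ^ ((L : ℝ) / ((L : ℝ) + 1)) := by
      rw [hw, ← Real.rpow_natCast, ← Real.rpow_mul (by positivity)]
      congr 1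
      field_simp
    rw [h10]
    have h11 : (L : ℝ) / ((L : ℝ) + 1) ≤ 1 := by
      rw [div_le_one (by positivity)]
      linarith
    calc (1 / d) ^ ((L : ℝ) / ((L : ℝ) + 1)) ≤ (1 / d) ^ (1 : ℝ) :=
          Real.rpow_le_rpow_of_exponent_le hx h11
      _ = 1 / d := Real.rpow_one _
  calc (1 + Real.log y) ^ L ≤ ((1 + Real.log B + 2 * ((L : ℝ) + 1)) * w) ^ L :=
        pow_le_pow_left₀ (by linarith) h7 L
    _ = (1 + Real.log B + 2 * ((L : ℝ) + 1)) ^ L * w ^ L := mul_pow _ _ _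
    _ ≤ (1 + Real.log B + 2 * ((L : ℝ) + 1)) ^ L * (1 / d) :=
        mul_le_mul_of_nonneg_left h9 (by positivity)
    _ = (1 + Real.log B + 2 * ((L : ℝ) + 1)) ^ L / d := by ring

theorem regd_R (t : ℕ) (ε d X C : ℝ) (ht : 1 ≤ t) (htε : 2 / (t : ℝ) ≤ ε) (hd0 : 0 < d)
    (hd1 : d ≤ 1) (hX : 0 ≤ X) (hC : 1 ≤ C) (hXC : X + 1 ≤ C / d ^ 2) :
    ∃ R : ℝ, 1 ≤ R ∧ X ≤ R ^ t ∧ R * d ^ ε ≤ C := by
  have htr : (1 : ℝ) ≤ t := by exact_mod_cast ht
  have ht0 : (0 : ℝ) < 1 / (t : ℝ) := by positivity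
  refine ⟨(X + 1) ^ (1 / (t : ℝ)), Real.one_le_rpow (by linarith) ht0.le, ?_, ?_⟩
  · rw [← Real.rpow_natCast, ← Real.rpow_mul (by positivity)]
    have h1 : 1 / (t : ℝ) * (t : ℝ) = 1 := by field_simp
    rw [h1, Real.rpow_one]
    linarith
  · have h1 : (X + 1) ^ (1 / (t : ℝ)) ≤ (C / d ^ 2) ^ (1 / (t : ℝ)) :=
      Real.rpow_le_rpow (by linarith) hXC ht0.le
    have h2 : (C / d ^ 2) ^ (1 / (t : ℝ)) = C ^ (1 / (t : ℝ)) / d ^ (2 / (t : ℝ)) := by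
      rw [Real.div_rpow (by linarith) (by positivity), ← Real.rpow_natCast d 2,
        ← Real.rpow_mul hd0.le]
      congr 2
      push_cast
      ring
    have h3 : C ^ (1 / (t : ℝ)) ≤ C := by
      calc C ^ (1 / (t : ℝ)) ≤ C ^ (1 : ℝ) := by
            refine Real.rpow_le_rpow_of_exponent_le hC ?_
            rw [div_le_one (by linarith)]
            exact htr
        _ = C := Real.rpow_one _
    have h4 : d ^ ε ≤ d ^ (2 / (t : ℝ)) := Real.rpow_le_rpow_of_exponent_ge hd0 hd1 htε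
    have h5 : 0 < d ^ (2 / (t : ℝ)) := Real.rpow_pos_of_pos hd0 _
    have h6 : 0 < d ^ ε := Real.rpow_pos_of_pos hd0 _
    calc (X + 1) ^ (1 / (t : ℝ)) * d ^ ε ≤ C ^ (1 / (t : ℝ)) / d ^ (2 / (t : ℝ)) * d ^ ε := by
          refine mul_le_mul_of_nonneg_right ?_ h6.le
          rw [← h2]
          exact h1
      _ ≤ C / d ^ (2 / (t : ℝ)) * d ^ (2 / (t : ℝ)) := by
          refine mul_le_mul ?_ h4 h6.le (by positivity)
          exact div_le_div_of_nonneg_right h3 h5.le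
      _ = C := by field_simp

theorem regd_markov (S : Finset (ℤ × ℤ)) (f : ℤ × ℤ → ℕ) (t : ℕ) (R E : ℝ) (hR : 1 ≤ R)
    (hE : ∑ v ∈ S, (f v : ℝ) ^ t ≤ E) :
    ((S.filter (fun v => R < (f v : ℝ))).card : ℝ) * R ^ t ≤ E := by
  refine le_trans ?_ hE
  calc ((S.filter (fun v => R < (f v : ℝ))).card : ℝ) * R ^ t
      = ∑ v ∈ S.filter (fun v => R < (f v : ℝ)), R ^ t := by
        rw [Finset.sum_const, nsmul_eq_mul]
    _ ≤ ∑ v ∈ S.filter (fun v => R < (f v : ℝ)), (f v : ℝ) ^ t := by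
        refine Finset.sum_le_sum fun v hv => ?_
        exact pow_le_pow_left₀ (by linarith) (Finset.mem_filter.1 hv).2.le t
    _ ≤ ∑ v ∈ S, (f v : ℝ) ^ t :=
        Finset.sum_le_sum_of_subset_of_nonneg (Finset.filter_subset _ _)
          (fun v _ _ => by positivity)

theorem regd_j (D : ℕ) : ∃ j : ℕ → ℤ, ∀ y z : ℕ, ∀ p ∈ PD D y z, (p : ℤ) ∣ j p ^ 2 + D := by
  have h : ∀ p : ℕ, ∃ r : ℤ, Spl D p → (p : ℤ) ∣ r ^ 2 + D := by
    intro p
    by_cases hp : Spl D p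
    · obtain ⟨r, hr⟩ := hp.2.2
      exact ⟨r, fun _ => hr⟩
    · exact ⟨0, fun h => absurd h hp⟩
  choose j hj using h
  exact ⟨j, fun y z p hp => hj p (Finset.mem_filter.1 hp).2⟩

theorem regd_sqrt (N : ℝ) (hN : 1 ≤ N) : Real.sqrt (Real.log N) ≤ 2 * N ^ (1 / 4 : ℝ) := by
  have h1 : Real.log N ≤ N ^ (1 / 2 : ℝ) / (1 / 2) :=
    Real.log_le_rpow_div (by linarith) (by norm_num)
  have h2 : N ^ (1 / 2 : ℝ) = (N ^ (1 / 4 : ℝ)) ^ 2 := by
    rw [← Real.rpow_natCast, ← Real.rpow_mul (by linarith)]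
    norm_num
  have h3 : 0 ≤ N ^ (1 / 4 : ℝ) := Real.rpow_nonneg (by linarith) _
  rw [Real.sqrt_le_left (by positivity)]
  rw [h2] at h1
  nlinarith

theorem st_REGD (h1 : ST_LOWD) (h2 : ST_MOMD) (h3 : ST_SWLD) (h4 : ST_CORED) : ST_REGD := by
  intro D hD ε hε
  obtain ⟨t, ht⟩ := exists_nat_ge (max 1 (2 / ε))
  have ht1 : 1 ≤ t := by
    have : (1 : ℝ) ≤ t := (le_max_left _ _).trans ht
    exact_mod_cast this
  have htε : 2 / (t : ℝ) ≤ ε := by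
    have h5 : 2 / ε ≤ t := (le_max_right _ _).trans ht
    have h6 : (0 : ℝ) < t := by
      have : (1 : ℝ) ≤ t := by exact_mod_cast ht1
      linarith
    rw [div_le_iff₀ hε] at h5
    rw [div_le_iff₀ h6]
    linarith
  obtain ⟨b₁, y₀, c₁, C₁, hb₁, hc₁, hC₁, hlow⟩ := h1
  obtain ⟨b₂, L, C₂, hb₂, hC₂, hmom⟩ := h2 D hD t
  obtain ⟨c₃, hc₃, hswl⟩ := h3 D hD
  obtain ⟨C₄, hC₄, hcore⟩ := h4 D hD
  obtain ⟨j, hj⟩ := regd_j D
  obtain ⟨b, hb⟩ : ∃ x' : ℕ, x' = max b₁ b₂ := ⟨_, rfl⟩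
  have hb1 : 1 ≤ b := by rw [hb]; exact hb₁.trans (le_max_left _ _)
  have hbr : (1 : ℝ) ≤ b := by exact_mod_cast hb1
  obtain ⟨B, hBdef⟩ : ∃ x' : ℝ, x' = (y₀ : ℝ) + 7 + 2 * D + C₁ ^ 2 := ⟨_, rfl⟩
  have hB1 : 1 ≤ B := by
    have e1 : (0 : ℝ) ≤ y₀ := by positivity
    have e2 : (0 : ℝ) ≤ D := by positivity
    have e3 : 0 ≤ C₁ ^ 2 := by positivity
    rw [hBdef]; linarith
  obtain ⟨C₆, hC₆⟩ : ∃ x' : ℝ, x' = (1 + Real.log B + 2 * ((L : ℝ) + 1)) ^ L := ⟨_, rfl⟩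
  have hlogB : 0 ≤ Real.log B := Real.log_nonneg hB1
  have hC₆0 : 0 ≤ C₆ := by rw [hC₆]; positivity
  obtain ⟨C₇, hC₇⟩ : ∃ x' : ℝ, x' = 4 * C₂ * C₆ / c₁ + 1 := ⟨_, rfl⟩
  have hC₇1 : 1 ≤ C₇ := by
    have : 0 ≤ 4 * C₂ * C₆ / c₁ := by positivity
    rw [hC₇]; linarith
  obtain ⟨k, hk⟩ : ∃ x' : ℕ, x' = 4 * b + 1 := ⟨_, rfl⟩
  obtain ⟨N₁, hN₁⟩ := exists_nat_ge (B ^ (2 * b))
  obtain ⟨N₂, hN₂⟩ := exists_nat_ge ((8 / (c₁ * c₃)) ^ 4)
  refine ⟨c₁ * c₃ / (C₄ * 2 ^ k * C₇), 1 / (8 * b), N₁ + N₂ + 2, by positivity, by positivity, ?_⟩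
  intro N M P hN hMN hNM hP hn
  have hN2 : 2 ≤ N := by omega
  have hN2r : (2 : ℝ) ≤ N := by exact_mod_cast hN2
  have hM1 : 1 ≤ M := by
    rcases Nat.eq_zero_or_pos M with h | h
    · subst h
      simp at hNM
      omega
    · exact h
  have hM1r : (1 : ℝ) ≤ M := by exact_mod_cast hM1
  have hMNpos : (0 : ℝ) < (M : ℝ) * N := by positivity
  have hNc : (0 : ℝ) < (N : ℝ) ^ (-(1 / (8 * b) : ℝ)) := Real.rpow_pos_of_pos (by linarith) _
  have hnpos : (0 : ℝ) < P.card := lt_of_lt_of_le (by positivity) hn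
  have hn1 : 1 ≤ P.card := by
    have : 0 < P.card := by exact_mod_cast hnpos
    omega
  have hcard : (P.card : ℝ) ≤ (M : ℝ) * N := by
    have h5 : P.card ≤ N * M := by
      refine (Finset.card_le_card hP).trans ?_
      simp [box]
    have h6 : (P.card : ℝ) ≤ (N : ℝ) * M := by exact_mod_cast h5
    linarith
  obtain ⟨d, hd⟩ : ∃ x' : ℝ, x' = (P.card : ℝ) / (M * N) := ⟨_, rfl⟩
  have hd0 : 0 < d := by rw [hd]; positivity
  have hd1 : d ≤ 1 := by rw [hd, div_le_one hMNpos]; exact hcard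
  have hdn : (P.card : ℝ) = d * (M * N) := by rw [hd]; field_simp
  have hdN : (N : ℝ) ^ (-(1 / (8 * b) : ℝ)) ≤ d := by
    rw [hd, le_div_iff₀ hMNpos]
    linarith
  obtain ⟨y, hy⟩ : ∃ x' : ℕ, x' = y₀ + 6 + 2 * D + ⌈(C₁ / d) ^ 2⌉₊ := ⟨_, rfl⟩
  have hyr1 : (C₁ / d) ^ 2 ≤ y := by
    have e1 := Nat.le_ceil ((C₁ / d) ^ 2)
    have e2 : ((⌈(C₁ / d) ^ 2⌉₊ : ℕ) : ℝ) ≤ (y : ℝ) := by
      have : ⌈(C₁ / d) ^ 2⌉₊ ≤ y := by omega
      exact_mod_cast this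
    exact e1.trans e2
  have hyr2 : (y : ℝ) ≤ B / d ^ 2 := by
    have e1 := (Nat.ceil_lt_add_one (show 0 ≤ (C₁ / d) ^ 2 by positivity)).le
    have e2 : (y : ℝ) = y₀ + 6 + 2 * D + (⌈(C₁ / d) ^ 2⌉₊ : ℕ) := by
      rw [hy]; push_cast; ring
    have e3 : (C₁ / d) ^ 2 = C₁ ^ 2 / d ^ 2 := by rw [div_pow]
    have e4 : (y₀ : ℝ) + 7 + 2 * D ≤ ((y₀ : ℝ) + 7 + 2 * D) / d ^ 2 := by
      rw [le_div_iff₀ (by positivity)]
      have e5 : d ^ 2 ≤ 1 := pow_le_one₀ hd0.le hd1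
      have e6 : (0 : ℝ) ≤ (y₀ : ℝ) + 7 + 2 * D := by positivity
      nlinarith
    have e7 : B / d ^ 2 = ((y₀ : ℝ) + 7 + 2 * D) / d ^ 2 + C₁ ^ 2 / d ^ 2 := by
      rw [hBdef]; ring
    rw [e2, e7]
    linarith
  have hy6 : 6 ≤ y := by omega
  have hy2D : 2 * D ≤ y := by omega
  have hyy0 : y₀ ≤ y := by omega
  have hy1r : (1 : ℝ) ≤ y := by
    have : 1 ≤ y := by omega
    exact_mod_cast this
  -- the size of y
  have hyb : y ^ b ≤ N := by
    have e1 : (y : ℝ) ≤ B * (N : ℝ) ^ (1 / (4 * b) : ℝ) := by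
      refine hyr2.trans ?_
      rw [div_le_iff₀ (by positivity)]
      have e2 : ((N : ℝ) ^ (-(1 / (8 * b) : ℝ))) ^ 2 ≤ d ^ 2 := pow_le_pow_left₀ hNc.le hdN 2
      have e3 : (N : ℝ) ^ (1 / (4 * b) : ℝ) * ((N : ℝ) ^ (-(1 / (8 * b) : ℝ))) ^ 2 = 1 := by
        rw [← Real.rpow_natCast, ← Real.rpow_mul (by linarith), ← Real.rpow_add (by linarith)]
        have : (1 / (4 * b) : ℝ) + -(1 / (8 * b) : ℝ) * ((2 : ℕ) : ℝ) = 0 := by
          push_cast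
          field_simp
          ring
        rw [this, Real.rpow_zero]
      have e4 : 0 < (N : ℝ) ^ (1 / (4 * b) : ℝ) := Real.rpow_pos_of_pos (by linarith) _
      calc B = B * ((N : ℝ) ^ (1 / (4 * b) : ℝ) * ((N : ℝ) ^ (-(1 / (8 * b) : ℝ))) ^ 2) := by
            rw [e3, mul_one]
        _ ≤ B * ((N : ℝ) ^ (1 / (4 * b) : ℝ) * d ^ 2) := by
            refine mul_le_mul_of_nonneg_left ?_ (by linarith)
            exact mul_le_mul_of_nonneg_left e2 e4.le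
        _ = B * (N : ℝ) ^ (1 / (4 * b) : ℝ) * d ^ 2 := by ring
    have e5 : (y : ℝ) ^ b ≤ B ^ b * (N : ℝ) ^ (1 / 4 : ℝ) := by
      calc (y : ℝ) ^ b ≤ (B * (N : ℝ) ^ (1 / (4 * b) : ℝ)) ^ b :=
            pow_le_pow_left₀ (by positivity) e1 b
        _ = B ^ b * ((N : ℝ) ^ (1 / (4 * b) : ℝ)) ^ b := mul_pow _ _ _
        _ = B ^ b * (N : ℝ) ^ (1 / 4 : ℝ) := by
            congr 1
            rw [← Real.rpow_natCast, ← Real.rpow_mul (by linarith)]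
            congr 1
            field_simp
    have e6 : B ^ b ≤ (N : ℝ) ^ (1 / 2 : ℝ) := by
      have e7 : B ^ (2 * b) ≤ N := by
        have : (N₁ : ℝ) ≤ N := by
          have : N₁ ≤ N := by omega
          exact_mod_cast this
        linarith
      rw [← Real.sqrt_eq_rpow]
      apply Real.le_sqrt_of_sq_le
      rw [← pow_mul]
      rw [Nat.mul_comm b 2]
      exact e7
    have e8 : (N : ℝ) ^ (1 / 2 : ℝ) * (N : ℝ) ^ (1 / 4 : ℝ) ≤ N := by
      rw [← Real.rpow_add (by linarith)]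
      calc (N : ℝ) ^ ((1 / 2 : ℝ) + 1 / 4) ≤ (N : ℝ) ^ (1 : ℝ) :=
            Real.rpow_le_rpow_of_exponent_le (by linarith) (by norm_num)
        _ = N := Real.rpow_one _
    have e9 : (y : ℝ) ^ b ≤ N := by
      refine e5.trans (le_trans ?_ e8)
      exact mul_le_mul_of_nonneg_right e6 (Real.rpow_nonneg (by linarith) _)
    exact_mod_cast e9
  obtain ⟨K, hK1, hK2⟩ := regd_K y b N (by omega) hb1 hyb
  obtain ⟨z, hz⟩ : ∃ x' : ℕ, x' = y ^ (2 ^ K) := ⟨_, rfl⟩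
  rw [← hz] at hK1 hK2
  have hyz : y ≤ z := by
    rw [hz]
    calc y = y ^ 1 := (pow_one y).symm
      _ ≤ y ^ (2 ^ K) := Nat.pow_le_pow_right (by omega) Nat.one_le_two_pow
  have hz1 : 1 ≤ z := by omega
  have hzb₁ : z ^ b₁ ≤ N :=
    (Nat.pow_le_pow_right hz1 (by rw [hb]; exact le_max_left b₁ b₂)).trans hK1
  have hzb₂ : z ^ b₂ ≤ N :=
    (Nat.pow_le_pow_right hz1 (by rw [hb]; exact le_max_right b₁ b₂)).trans hK1
  have hzN : z ≤ N := by
    have : z ^ 1 ≤ z ^ b := Nat.pow_le_pow_right hz1 hb1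
    rw [pow_one] at this
    omega
  have hzk : (D + 1) * N ^ 2 < z ^ k := by
    have e1 : N ^ 2 < (z ^ (2 * b)) ^ 2 := Nat.pow_lt_pow_left hK2 (by norm_num)
    have e2 : z ^ k = z * (z ^ (2 * b)) ^ 2 := by
      rw [← pow_mul, hk, pow_succ, Nat.mul_comm]
      congr 2
      ring
    rw [e2]
    have e3 : D + 1 ≤ z := by omega
    calc (D + 1) * N ^ 2 ≤ z * N ^ 2 := Nat.mul_le_mul_right _ e3
      _ < z * (z ^ (2 * b)) ^ 2 := Nat.mul_lt_mul_of_pos_left e1 (by omega)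
  -- the lower bound for the free pairs
  have hA : PD D y z ⊆ PP y (y ^ (2 ^ K)) := by
    rw [← hz]
    exact Finset.filter_subset _ _
  have hfree := hlow j N M P y K (PD D y z) hM1 (by omega) hP hyy0 (by rw [← hz]; exact hzb₁)
    hA (by
    have e1 : C₁ / d ≤ Real.sqrt y := Real.le_sqrt_of_sq_le hyr1
    calc C₁ * ((M : ℝ) * N) = C₁ / d * P.card := by rw [hdn]; field_simp
      _ ≤ Real.sqrt y * P.card := mul_le_mul_of_nonneg_right e1 hnpos.le)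
  have hsw0 : 0 < sw (PD D y z) := Real.exp_pos _
  have hlogN : 0 < Real.log N := Real.log_pos (by linarith)
  have hsN : 0 < Real.sqrt (Real.log N) := Real.sqrt_pos.2 hlogN
  have hsw : c₃ / Real.sqrt (Real.log N) ≤ sw (PD D y z) := by
    refine le_trans ?_ (hswl y z (by omega) hyz)
    have e1 : 0 < Real.log z := by
      apply Real.log_pos
      have : 2 ≤ z := by omega
      have : (2 : ℝ) ≤ z := by exact_mod_cast this
      linarith
    refine div_le_div_of_nonneg_left hc₃.le (Real.sqrt_pos.2 e1) ?_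
    apply Real.sqrt_le_sqrt
    apply Real.log_le_log
    · have : (1 : ℝ) ≤ z := by exact_mod_cast hz1
      linarith
    · exact_mod_cast hzN
  -- the parameter R
  obtain ⟨X, hX⟩ : ∃ x' : ℝ, x' = 4 * C₂ * (1 + Real.log y) ^ L / (c₁ * d) := ⟨_, rfl⟩
  have hlogy : 0 ≤ Real.log y := Real.log_nonneg hy1r
  have hX0 : 0 ≤ X := by rw [hX]; positivity
  have hXC : X + 1 ≤ C₇ / d ^ 2 := by
    have e1 := regd_log L B d y hB1 hd0 hd1 hy1r hyr2
    rw [← hC₆] at e1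
    have e2 : X ≤ 4 * C₂ * C₆ / c₁ / d ^ 2 := by
      rw [hX]
      calc 4 * C₂ * (1 + Real.log y) ^ L / (c₁ * d) ≤ 4 * C₂ * (C₆ / d) / (c₁ * d) := by
            refine div_le_div_of_nonneg_right ?_ (by positivity)
            exact mul_le_mul_of_nonneg_left e1 (by positivity)
        _ = 4 * C₂ * C₆ / c₁ / d ^ 2 := by field_simp
    have e3 : 1 ≤ 1 / d ^ 2 := by
      rw [le_div_iff₀ (by positivity), one_mul]
      exact pow_le_one₀ hd0.le hd1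
    have e4 : C₇ / d ^ 2 = 4 * C₂ * C₆ / c₁ / d ^ 2 + 1 / d ^ 2 := by
      rw [hC₇]; ring
    rw [e4]
    linarith
  obtain ⟨R, hR1, hXR, hRd⟩ := regd_R t ε d X C₇ ht1 htε hd0 hd1 hX0 hC₇1 hXC
  have hmm := hmom j N M y z hy6 hy2D hyz hzb₂ hM1 hMN hNM
  have hmk := regd_markov _ (fun v => tau (msD D y v)) t R _ hR1 hmm
  have hbad : (((sbox N M).filter (fun v => v ≠ 0 ∧ Free j (PD D y z) v ∧
      R < tau (msD D y v))).card : ℝ) ≤ c₁ / 4 * sw (PD D y z) * P.card := by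
    have e1 : (sbox N M).filter (fun v => v ≠ 0 ∧ Free j (PD D y z) v ∧
        R < tau (msD D y v)) = ((sbox N M).filter (fun v => v ≠ 0 ∧ Free j (PD D y z) v)).filter
        (fun v => R < ((tau (msD D y v) : ℕ) : ℝ)) := by
      rw [Finset.filter_filter]
      refine Finset.filter_congr fun v _ => ?_
      rw [and_assoc]
    rw [e1]
    have hRt : 0 < R ^ t := by positivity
    refine le_of_mul_le_mul_right (hmk.trans ?_) hRt
    have e2 : C₂ * (1 + Real.log y) ^ L * ((M : ℝ) * N) * sw (PD D y z) =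
        c₁ / 4 * sw (PD D y z) * P.card * X := by
      rw [hX, hdn]
      generalize (1 + Real.log y) ^ L = W
      generalize sw (PD D y z) = s
      field_simp
    rw [e2]
    exact mul_le_mul_of_nonneg_left hXR
      (mul_nonneg (mul_nonneg (by linarith) hsw0.le) hnpos.le)
  have hfour : 4 ≤ c₁ * sw (PD D y z) * P.card := by
    have e1 : (N : ℝ) ^ (1 / 2 : ℝ) ≤ P.card := by
      refine le_trans ?_ hn
      have e2 : (N : ℝ) * (N : ℝ) ^ (-(1 / (8 * b) : ℝ)) ≤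
          (M : ℝ) * N * (N : ℝ) ^ (-(1 / (8 * b) : ℝ)) := by
        refine mul_le_mul_of_nonneg_right ?_ hNc.le
        nlinarith
      refine le_trans ?_ e2
      have e3 : (N : ℝ) * (N : ℝ) ^ (-(1 / (8 * b) : ℝ)) =
          (N : ℝ) ^ (1 + -(1 / (8 * b) : ℝ)) := by
        rw [Real.rpow_add (by linarith), Real.rpow_one]
      rw [e3]
      refine Real.rpow_le_rpow_of_exponent_le (by linarith) ?_
      have e4 : (1 / (8 * b) : ℝ) ≤ 1 / 2 := by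
        rw [div_le_div_iff₀ (by positivity) (by norm_num)]
        linarith
      linarith
    have e5 := regd_sqrt N (by linarith)
    have e6 : 8 / (c₁ * c₃) ≤ (N : ℝ) ^ (1 / 4 : ℝ) := by
      have e7 : (8 / (c₁ * c₃)) ^ 4 ≤ N := by
        have : (N₂ : ℝ) ≤ N := by
          have : N₂ ≤ N := by omega
          exact_mod_cast this
        linarith
      have e8 : 8 / (c₁ * c₃) = ((8 / (c₁ * c₃)) ^ 4) ^ (1 / 4 : ℝ) := by
        rw [← Real.rpow_natCast, ← Real.rpow_mul (by positivity)]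
        norm_num
      rw [e8]
      exact Real.rpow_le_rpow (by positivity) e7 (by norm_num)
    have e9 : (N : ℝ) ^ (1 / 2 : ℝ) = (N : ℝ) ^ (1 / 4 : ℝ) * (N : ℝ) ^ (1 / 4 : ℝ) := by
      rw [← Real.rpow_add (by linarith)]
      norm_num
    obtain ⟨w, hw⟩ : ∃ x' : ℝ, x' = (N : ℝ) ^ (1 / 4 : ℝ) := ⟨_, rfl⟩
    rw [← hw] at e5 e6 e9
    have hw0 : 0 < w := by rw [hw]; exact Real.rpow_pos_of_pos (by linarith) _
    have e10 : c₃ / (2 * w) ≤ sw (PD D y z) := by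
      refine le_trans ?_ hsw
      exact div_le_div_of_nonneg_left hc₃.le hsN e5
    have e11 : c₁ * (c₃ / (2 * w)) * (w * w) ≤ c₁ * sw (PD D y z) * P.card := by
      refine mul_le_mul ?_ (by rw [← e9]; exact e1) (by positivity) (by positivity)
      exact mul_le_mul_of_nonneg_left e10 hc₁.le
    refine le_trans ?_ e11
    have e12 : c₁ * (c₃ / (2 * w)) * (w * w) = c₁ * c₃ / 2 * w := by field_simp
    rw [e12]
    rw [div_le_iff₀ (by positivity)] at e6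
    linarith
  have hfin := hcore j N M P y z k c₁ R (hj y z) hM1 hMN hP hn1 (by omega) hy2D hyz hzk hc₁ hR1
    hfour hfree hbad
  have hR0 : 0 < R := by linarith
  have hdε : 0 < d ^ ε := Real.rpow_pos_of_pos hd0 _
  have hQ : 0 < C₄ * 2 ^ k * C₇ := by positivity
  -- conclusion
  have e1 : c₁ * (c₃ / Real.sqrt (Real.log N)) * P.card ≤ C₄ * 2 ^ k * R * dcD D P := by
    refine le_trans ?_ hfin
    refine mul_le_mul_of_nonneg_right ?_ hnpos.le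
    exact mul_le_mul_of_nonneg_left hsw hc₁.le
  have e2 : c₁ * (c₃ / Real.sqrt (Real.log N)) * P.card * d ^ ε ≤
      C₄ * 2 ^ k * C₇ * dcD D P := by
    calc c₁ * (c₃ / Real.sqrt (Real.log N)) * P.card * d ^ ε ≤
        C₄ * 2 ^ k * R * dcD D P * d ^ ε := mul_le_mul_of_nonneg_right e1 hdε.le
      _ = C₄ * 2 ^ k * dcD D P * (R * d ^ ε) := by ring
      _ ≤ C₄ * 2 ^ k * dcD D P * C₇ := mul_le_mul_of_nonneg_left hRd (by positivity)
      _ = C₄ * 2 ^ k * C₇ * dcD D P := by ring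
  rw [← hd]
  calc c₁ * c₃ / (C₄ * 2 ^ k * C₇) * d ^ ε * P.card / Real.sqrt (Real.log N)
      = (c₁ * (c₃ / Real.sqrt (Real.log N)) * P.card * d ^ ε) / (C₄ * 2 ^ k * C₇) := by
        ring
    _ ≤ dcD D P := by
        rw [div_le_iff₀ hQ]
        linarith

end Pool.Agent.Helper37.DG
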