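import Pool.Agent.Helper37.DG.Stmts
import Pool.Agent.Helper15.HallDiv

/-!
The bound from the divisor function.
-/

namespace Pool.Agent.Helper37.DG

open Finset
open scoped Classical

theorem triv_root : ∃ j : ℕ → ℤ, Root j := by
  have h : ∀ p : ℕ, ∃ r : ℤ, p.Prime → p % 4 = 1 → (p : ℤ) ∣ r ^ 2 + 1 := by
    intro p
    by_cases hp : p.Prime
    · by_cases h4 : p % 4 = 1
      · have := Fact.mk hp
        have h1 : IsSquare (-1 : ZMod p) := by
          rw [ZMod.exists_sq_eq_neg_one_iff]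
          omega
        obtain ⟨y, hy⟩ := h1
        refine ⟨(y.val : ℤ), fun _ _ => ?_⟩
        rw [← ZMod.intCast_zmod_eq_zero_iff_dvd]
        push_cast
        rw [ZMod.natCast_zmod_val, sq, ← hy]
        ring
      · exact ⟨0, fun _ h => absurd h h4⟩
    · exact ⟨0, fun h => absurd h hp⟩
  choose j hj using h
  exact ⟨j, hj⟩

theorem triv_tau (m : ℕ) (hm : 1 ≤ m) :
    ∏ p ∈ m.primeFactors.filter (fun p => p % 4 = 1 ∧ p ∉ (∅ : Finset ℕ)),
      (m.factorization p + 1) ≤ tau m := by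
  unfold tau
  rw [Nat.card_divisors (by omega)]
  refine Finset.prod_le_prod_of_subset_of_one_le' (Finset.filter_subset _ _) ?_
  intro p _ _
  omega

theorem triv_nm_pos (v : ℤ × ℤ) (hv : v ≠ 0) : 1 ≤ nm v := by
  unfold nm
  have h : 0 < v.1 ^ 2 + v.2 ^ 2 := by
    by_contra h
    have h1 := sq_nonneg v.1
    have h2 := sq_nonneg v.2
    have h3 : v.1 ^ 2 = 0 := by omega
    have h4 : v.2 ^ 2 = 0 := by omega
    apply hv
    ext
    · exact pow_eq_zero_iff two_ne_zero |>.1 h3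
    · exact pow_eq_zero_iff two_ne_zero |>.1 h4
  omega

theorem triv_nm_le (N M : ℕ) (hMN : M ≤ N) (a b : ℤ × ℤ) (ha : a ∈ box N M) (hb : b ∈ box N M) :
    nm (a - b) ≤ 2 * N ^ 2 := by
  simp only [box, Finset.mem_product, Finset.mem_Ico] at ha hb
  unfold nm
  have hM : (M : ℤ) ≤ N := by exact_mod_cast hMN
  have h1 : (a - b).1 ^ 2 ≤ (N : ℤ) ^ 2 := by
    rw [Prod.fst_sub]
    apply sq_le_sq'
    · omega
    · omega
  have h2 : (a - b).2 ^ 2 ≤ (N : ℤ) ^ 2 := by
    rw [Prod.snd_sub]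
    apply sq_le_sq'
    · omega
    · omega
  have h3 := sq_nonneg (a - b).1
  have h4 := sq_nonneg (a - b).2
  have h5 : (((a - b).1 ^ 2 + (a - b).2 ^ 2).natAbs : ℤ) = (a - b).1 ^ 2 + (a - b).2 ^ 2 :=
    Int.natAbs_of_nonneg (by omega)
  zify
  rw [← Int.natCast_natAbs, h5]
  linarith

theorem st_TRIV (h1 : ST_MUL) : ST_TRIV := by
  intro η hη
  obtain ⟨C, hC1, hC⟩ := Pool.Agent.Helper15.Hall.card_divisors_le_uniform (η / 2) (by positivity)
  refine ⟨8 * C * 2 ^ (η / 2), by positivity, ?_⟩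
  intro N M P hM hMN hP hcard
  obtain ⟨j, hj⟩ := triv_root
  obtain ⟨a, ha⟩ : P.Nonempty := Finset.card_pos.1 (by omega)
  have hN1 : 1 ≤ N := hM.trans hMN
  have hNr : (0 : ℝ) < N := by exact_mod_cast hN1
  let D : Finset ℕ := P.offDiag.image (fun a => nm (a.1 - a.2))
  have hmap : ∀ b ∈ P.erase a, nm (a - b) ∈ D := by
    intro b hb
    rw [Finset.mem_erase] at hb
    refine Finset.mem_image.2 ⟨(a, b), ?_, rfl⟩
    rw [Finset.mem_offDiag]
    exact ⟨ha, hb.2, fun h => hb.1 h.symm⟩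
  have hcount := Finset.card_eq_sum_card_fiberwise hmap
  have hfib : ∀ m ∈ D, (((P.erase a).filter (fun b => nm (a - b) = m)).card : ℝ) ≤
      4 * (C * (2 * (N : ℝ) ^ 2) ^ (η / 2)) := by
    intro m hm
    obtain ⟨⟨c, d⟩, hcd, hcm⟩ := Finset.mem_image.1 hm
    rw [Finset.mem_offDiag] at hcd
    have hm1 : 1 ≤ m := by
      rw [← hcm]
      exact triv_nm_pos _ (sub_ne_zero.2 hcd.2.2)
    have hm2 : m ≤ 2 * N ^ 2 := by
      rw [← hcm]
      exact triv_nm_le N M hMN c d (hP hcd.1) (hP hcd.2.1)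
    have h2 := h1 j ∅ m hj (by simp) hm1
      (((P.erase a).filter (fun b => nm (a - b) = m)).image (fun b => a - b)) (by
        intro v hv
        obtain ⟨b, hb, rfl⟩ := Finset.mem_image.1 hv
        rw [Finset.mem_filter] at hb
        exact ⟨hb.2, fun p hp => absurd hp (Finset.notMem_empty p)⟩)
    rw [Finset.card_image_of_injective _ (fun x y h => by simpa using h)] at h2
    have h3 := triv_tau m hm1
    have h4 := hC (2 * N ^ 2) m (by omega) hm2
    push_cast at h4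
    have h5 : ((((P.erase a).filter (fun b => nm (a - b) = m)).card : ℕ) : ℝ) ≤
        ((4 * tau m : ℕ) : ℝ) := by
      exact_mod_cast h2.trans (Nat.mul_le_mul_left 4 h3)
    refine h5.trans ?_
    push_cast
    have h6 : (tau m : ℝ) ≤ C * (2 * (N : ℝ) ^ 2) ^ (η / 2) := h4
    linarith
  have h7 : ((P.erase a).card : ℝ) ≤ D.card * (4 * (C * (2 * (N : ℝ) ^ 2) ^ (η / 2))) := by
    rw [hcount]
    push_cast
    refine (Finset.sum_le_sum hfib).trans ?_
    rw [Finset.sum_const, nsmul_eq_mul]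
  have h8 : (P.card : ℝ) ≤ 2 * (P.erase a).card := by
    rw [Finset.card_erase_of_mem ha]
    have h9 : P.card ≤ 2 * (P.card - 1) := by omega
    exact_mod_cast h9
  have h9 : (2 * (N : ℝ) ^ 2) ^ (η / 2) = 2 ^ (η / 2) * (N : ℝ) ^ η := by
    rw [Real.mul_rpow (by norm_num) (by positivity), ← Real.rpow_natCast (N : ℝ) 2,
      ← Real.rpow_mul hNr.le]
    congr 2
    push_cast
    ring
  rw [h9] at h7
  have hD : (D.card : ℝ) = (dc P : ℝ) := rfl
  rw [hD] at h7
  calc (P.card : ℝ) ≤ 2 * (P.erase a).card := h8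
    _ ≤ 2 * (dc P * (4 * (C * (2 ^ (η / 2) * (N : ℝ) ^ η)))) := by linarith
    _ = 8 * C * 2 ^ (η / 2) * (N : ℝ) ^ η * dc P := by ring

end Pool.Agent.Helper37.DG
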